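import Mathlib

/-!
# Idempotents from algebraic skew elements
-/

set_option autoImplicit false

namespace Pool.Agent.K3h96.SD

open Polynomial

section poly

/-- Splitting off the factor `T - c` of a polynomial: `P = (T - c)^m Q`, and a polynomial `f` with
`f ≡ 1 mod (T - c)^m` and `Q ∣ f`. -/
lemma exists_split (P : ℚ[X]) (hP : P ≠ 0) (c : ℚ) : ∃ (m : ℕ) (Q f u : ℚ[X]),
    P = (X - C c) ^ m * Q ∧ Q.eval c ≠ 0 ∧ Q ∣ f ∧ f = 1 - u * (X - C c) ^ m := by
  obtain ⟨Q, hQ, hnd⟩ := Polynomial.exists_eq_pow_rootMultiplicity_mul_and_not_dvd P hP c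
  have hQc : Q.eval c ≠ 0 := fun h => hnd (Polynomial.dvd_iff_isRoot.2 h)
  have hcop : IsCoprime ((X - C c) ^ (P.rootMultiplicity c)) Q := by
    apply IsCoprime.pow_left
    exact ((Polynomial.irreducible_X_sub_C c).coprime_iff_not_dvd).2 hnd
  obtain ⟨u, v, huv⟩ := hcop
  refine ⟨P.rootMultiplicity c, Q, v * Q, u, hQ, hQc, dvd_mul_left _ _, ?_⟩
  rw [← huv]; ring

/-- The chosen multiplicity. -/
noncomputable def mult (P : ℚ[X]) (hP : P ≠ 0) (c : ℚ) : ℕ := (exists_split P hP c).choose
/-- The chosen cofactor. -/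
noncomputable def cof (P : ℚ[X]) (hP : P ≠ 0) (c : ℚ) : ℚ[X] :=
  (exists_split P hP c).choose_spec.choose
/-- The chosen idempotent polynomial. -/
noncomputable def idp (P : ℚ[X]) (hP : P ≠ 0) (c : ℚ) : ℚ[X] :=
  (exists_split P hP c).choose_spec.choose_spec.choose

variable (P : ℚ[X]) (hP : P ≠ 0) (c : ℚ)

lemma split_spec : ∃ u, P = (X - C c) ^ (mult P hP c) * cof P hP c ∧ (cof P hP c).eval c ≠ 0 ∧
    cof P hP c ∣ idp P hP c ∧ idp P hP c = 1 - u * (X - C c) ^ (mult P hP c) :=
  (exists_split P hP c).choose_spec.choose_spec.choose_spec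

lemma dvd_idp_sub : P ∣ idp P hP c * idp P hP c - idp P hP c := by
  obtain ⟨u, h1, _, ⟨w, hw⟩, h3⟩ := split_spec P hP c
  refine ⟨-(u * w), ?_⟩
  have h4 : idp P hP c * idp P hP c - idp P hP c =
      -(idp P hP c * (1 - idp P hP c)) := by ring
  rw [h4]
  have h5 : 1 - idp P hP c = u * (X - C c) ^ (mult P hP c) := by rw [h3]; ring
  rw [h5]
  conv_rhs => rw [h1]
  rw [hw]; ring

lemma eval_idp_self (hc : P.eval c = 0) : (idp P hP c).eval c = 1 := by
  obtain ⟨u, h1, h2, _, h3⟩ := split_spec P hP c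
  have hm : mult P hP c ≠ 0 := by
    intro h0
    rw [h0, pow_zero, one_mul] at h1
    rw [h1] at hc
    exact h2 hc
  rw [h3]
  simp [hm]

lemma eval_idp_ne {c' : ℚ} (hc' : P.eval c' = 0) (hne : c' ≠ c) : (idp P hP c).eval c' = 0 := by
  obtain ⟨u, h1, _, ⟨w, hw⟩, _⟩ := split_spec P hP c
  have h4 : (cof P hP c).eval c' = 0 := by
    rw [h1] at hc'
    simp only [eval_mul, eval_pow, eval_sub, eval_X, eval_C, mul_eq_zero] at hc'
    rcases hc' with h | h
    · exact absurd ((pow_eq_zero_iff (by intro h0; rw [h0, pow_zero] at h; exact one_ne_zero h)).1 h) (sub_ne_zero.2 hne)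
    · exact h
  rw [hw, eval_mul, h4, zero_mul]

/-- If `g` is divisible by `cof P c` and `(X - c)^m` divides `g` then `P ∣ g`. -/
lemma dvd_of_split {g h : ℚ[X]} (hg : cof P hP c ∣ g) (hh : (X - C c) ^ (mult P hP c) ∣ h) :
    P ∣ g * h := by
  obtain ⟨u, h1, _, _, _⟩ := split_spec P hP c
  obtain ⟨a, ha⟩ := hg
  obtain ⟨b, hb⟩ := hh
  refine ⟨a * b, ?_⟩
  rw [ha, hb]
  conv_rhs => rw [h1]
  ring

lemma pow_dvd_cof {c' : ℚ} (hne : c ≠ c') : (X - C c) ^ (mult P hP c) ∣ cof P hP c' := by
  obtain ⟨u, h1, _, _, _⟩ := split_spec P hP c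
  obtain ⟨u', h1', _, _, _⟩ := split_spec P hP c'
  have h2 : (X - C c) ^ (mult P hP c) ∣ (X - C c') ^ (mult P hP c') * cof P hP c' := by
    rw [← h1']
    exact ⟨_, h1⟩
  refine IsCoprime.dvd_of_dvd_mul_left ?_ h2
  apply IsCoprime.pow
  exact Polynomial.isCoprime_X_sub_C_of_isUnit_sub (IsUnit.mk0 _ (sub_ne_zero.2 hne))

lemma dvd_idp_mul {c' : ℚ} (hne : c ≠ c') : P ∣ idp P hP c * idp P hP c' := by
  obtain ⟨u, _, _, h3, _⟩ := split_spec P hP c
  obtain ⟨u', _, _, h3', _⟩ := split_spec P hP c'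
  exact dvd_of_split P hP c h3 ((pow_dvd_cof P hP c hne).trans h3')

/-- The orthogonality with the reflected idempotents. -/
lemma dvd_idp_mul_comp (hsym : P.comp (-X) = P) {c' : ℚ} (hne : c ≠ -c') :
    P ∣ idp P hP c * (idp P hP c').comp (-X) := by
  obtain ⟨u, h1, _, h3, _⟩ := split_spec P hP c
  obtain ⟨u', h1', _, ⟨w, h3'⟩, _⟩ := split_spec P hP c'
  refine dvd_of_split P hP c h3 ?_
  have h4 : (X - C c) ^ (mult P hP c) ∣
      (-X - C c') ^ (mult P hP c') * (cof P hP c').comp (-X) := by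
    have h5 : (-X - C c') ^ (mult P hP c') * (cof P hP c').comp (-X) = P := by
      conv_rhs => rw [← hsym, h1']
      simp [mul_comp, pow_comp, sub_comp]
    rw [h5]
    exact ⟨_, h1⟩
  have h6 : (X - C c) ^ (mult P hP c) ∣ (cof P hP c').comp (-X) := by
    refine IsCoprime.dvd_of_dvd_mul_left ?_ h4
    apply IsCoprime.pow
    have h7 : (-X - C c' : ℚ[X]) = -(X - C (-c')) := by simp [sub_eq_add_neg, add_comm]
    rw [h7, IsCoprime.neg_right_iff]
    exact Polynomial.isCoprime_X_sub_C_of_isUnit_sub (IsUnit.mk0 _ (sub_ne_zero.2 hne))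
  rw [h3', mul_comp]
  exact dvd_mul_of_dvd_left h6 _

end poly

section ring

variable {R : Type*} [Ring R] [Algebra ℚ R]

/-- The action of a polynomial in `s` on an eigenvector of `s`. -/
lemma act_aeval {s : R} {K V : Type*} [Field K] [AddCommGroup V] [Module K V]
    (φ : R →+* Module.End K V) {v : V} (hv0 : v ≠ 0) {c' : ℚ} (hv : (φ s) v = (c' : K) • v)
    (f : ℚ[X]) : φ (aeval s f) v = ((f.eval c' : ℚ) : K) • v ∧ CharZero K := by
  have hK : CharZero K := by
    refine charZero_of_inj_zero fun n hn => ?_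
    by_contra hn0
    have h1 : φ ((n : R) * algebraMap ℚ R ((n : ℚ)⁻¹)) v = v := by
      rw [← map_natCast (algebraMap ℚ R), ← map_mul, mul_inv_cancel₀ (Nat.cast_ne_zero.2 hn0),
        map_one, map_one]
      rfl
    rw [map_mul, map_natCast, Module.End.mul_apply, Module.End.natCast_apply] at h1
    apply hv0
    rw [← h1, ← Nat.cast_smul_eq_nsmul K, hn, zero_smul]
  refine ⟨?_, hK⟩
  have hq : ∀ q : ℚ, φ (algebraMap ℚ R q) v = (q : K) • v := by
    intro q
    let ψ : ℚ →+* Module.End K V := φ.comp (algebraMap ℚ R)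
    let ψ' : ℚ →+* Module.End K V := (algebraMap K (Module.End K V)).comp (algebraMap ℚ K)
    have : ψ = ψ' := RingHom.ext_rat _ _
    have h2 : ψ q v = ψ' q v := by rw [this]
    exact h2
  induction f using Polynomial.induction_on' with
  | add f g hf hg =>
    rw [map_add, map_add, LinearMap.add_apply, hf, hg, eval_add, Rat.cast_add, add_smul]
  | monomial n a =>
    have h1 : ∀ n : ℕ, φ (s ^ n) v = ((c' ^ n : ℚ) : K) • v := by
      intro n
      induction n with
      | zero => simp
      | succ n ih =>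
        rw [pow_succ', map_mul, Module.End.mul_apply, ih, map_smul, hv, smul_smul, pow_succ,
          Rat.cast_mul]
    rw [aeval_monomial, map_mul, Module.End.mul_apply, h1, map_smul, hq, smul_smul,
      eval_monomial, Rat.cast_mul, mul_comm]

/-- An algebraic element is a zero of a nonzero polynomial `P` with `P (-X) = P`. -/
lemma exists_sym {s : R} (h : IsAlgebraic ℚ s) : ∃ P : ℚ[X], P ≠ 0 ∧ aeval s P = 0 ∧
    P.comp (-X) = P := by
  obtain ⟨P, hP, hs⟩ := h
  refine ⟨P * P.comp (-X), ?_, ?_, ?_⟩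
  · apply mul_ne_zero hP
    intro h0
    apply hP
    have h1 : (P.comp (-X)).comp (-X) = P := by
      rw [comp_assoc]; simp
    rw [← h1, h0, zero_comp]
  · rw [map_mul, hs, zero_mul]
  · rw [mul_comp, comp_assoc]
    simp [mul_comm]

/-- Idempotents from an algebraic element `s` with `t s = -s`, `t` an additive anti-automorphism:
for every rational `c > 0` there is an idempotent `e c`, a polynomial in `s`, such that the `e c` and
`t (e c)` are mutually orthogonal and `e c` is the projection to the eigenspace for `c`, in every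
representation. -/
lemma exists_idem (t : R →+ R) (ht1 : t 1 = 1) (htm : ∀ a b, t (a * b) = t b * t a)
    (htq : ∀ (q : ℚ) (a : R), t (q • a) = q • t a) {s : R} (hs : IsAlgebraic ℚ s)
    (hts : t s = -s) : ∃ e : ℚ → R,
    (∀ c, e c ∈ Algebra.adjoin ℚ {s}) ∧
    (∀ c, e c * e c = e c) ∧ (∀ c c', c ≠ c' → e c * e c' = 0) ∧
    (∀ c c', 0 < c → 0 < c' → e c * t (e c') = 0) ∧
    (∀ c c', 0 < c → 0 < c' → t (e c) * e c' = 0) ∧
    (∀ c, t (e c) ∈ Algebra.adjoin ℚ {s}) ∧
    ∀ {K V : Type*} [Field K] [AddCommGroup V] [Module K V] (φ : R →+* Module.End K V) (v : V)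
      (c' : ℚ), (φ s) v = (c' : K) • v → (∀ c, (φ (e c)) v = if c' = c then v else 0) ∧
        (∀ c, (φ (t (e c))) v = if c' = -c then v else 0) := by
  obtain ⟨P, hP, hPs, hsym⟩ := exists_sym hs
  have htp : ∀ f : ℚ[X], t (aeval s f) = aeval s (f.comp (-X)) := by
    intro f
    induction f using Polynomial.induction_on' with
    | add f g hf hg => simp only [map_add, add_comp, hf, hg]
    | monomial n a =>
      have h1 : ∀ n : ℕ, t (s ^ n) = (-s) ^ n := by
        intro n
        induction n with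
        | zero => simp [ht1]
        | succ n ih => rw [pow_succ, htm, ih, hts, ← pow_succ']
      rw [aeval_monomial, ← Algebra.smul_def, htq, h1, ← C_mul_X_pow_eq_monomial]
      simp only [mul_comp, C_comp, pow_comp, X_comp, map_mul, aeval_C, map_pow, map_neg, aeval_X]
      rw [Algebra.smul_def]
  have hd : ∀ f : ℚ[X], P ∣ f → aeval s f = 0 := by
    rintro f ⟨g, rfl⟩
    rw [map_mul, hPs, zero_mul]
  refine ⟨fun c => aeval s (idp P hP c), fun c => aeval_mem_adjoin_singleton ℚ s, ?_, ?_, ?_, ?_,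
    ?_, ?_⟩
  · intro c
    have h := hd _ (dvd_idp_sub P hP c)
    rw [map_sub, map_mul, sub_eq_zero] at h
    exact h
  · intro c c' hne
    have h := hd _ (dvd_idp_mul P hP c hne)
    rw [map_mul] at h
    exact h
  · intro c c' hc hc'
    have h := hd _ (dvd_idp_mul_comp P hP c hsym (c' := c') (by linarith))
    rw [map_mul, ← htp] at h
    exact h
  · intro c c' hc hc'
    have h := hd _ (dvd_idp_mul_comp P hP c' hsym (c' := c) (by linarith))
    rw [mul_comm, map_mul, ← htp] at h
    exact h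
  · intro c
    change t (aeval s _) ∈ _
    rw [htp]
    exact aeval_mem_adjoin_singleton ℚ s
  · intro K V _ _ _ φ v c' hv
    by_cases hv0 : v = 0
    · subst hv0
      constructor
      · intro c; rw [map_zero]; split_ifs <;> rfl
      · intro c; rw [map_zero]; split_ifs <;> rfl
    have hf : ∀ f : ℚ[X], φ (aeval s f) v = ((f.eval c' : ℚ) : K) • v := fun f =>
      (act_aeval φ hv0 hv f).1
    have hK : CharZero K := (act_aeval φ hv0 hv 0).2
    have hPc : P.eval c' = 0 := by
      have h := hf P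
      rw [hPs, map_zero] at h
      change (0 : V) = _ at h
      rcases smul_eq_zero.1 h.symm with h | h
      · exact_mod_cast h
      · exact absurd h hv0
    constructor
    · intro c
      change φ (aeval s _) v = _
      rw [hf]
      by_cases hc : c' = c
      · rw [if_pos hc]
        subst hc
        rw [eval_idp_self P hP c' hPc, Rat.cast_one, one_smul]
      · rw [if_neg hc, eval_idp_ne P hP c hPc hc, Rat.cast_zero, zero_smul]
    · intro c
      change φ (t (aeval s _)) v = _
      rw [htp, hf, eval_comp, eval_neg, eval_X]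
      have hPc' : P.eval (-c') = 0 := by
        rw [← hsym, eval_comp, eval_neg, eval_X, neg_neg]
        exact hPc
      by_cases hc : c' = -c
      · rw [if_pos hc]
        subst hc
        rw [neg_neg] at hPc' ⊢
        rw [eval_idp_self P hP c hPc', Rat.cast_one, one_smul]
      · rw [if_neg hc, eval_idp_ne P hP c hPc' (fun h => hc (by linarith)), Rat.cast_zero,
          zero_smul]

end ring

end Pool.Agent.K3h96.SD
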