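import Pool.Agent.Y107.SDDefs

/-!
# Algebraic correspondences: definitions
-/

open CategoryTheory AlgebraicGeometry

universe u v w

namespace Pool.Agent.K3h96.SD

open Pool.Agent.H914 Pool.Agent.H914.VarClass Pool.Agent.H914.VarClass.Obj Pool.Agent.W492.BB
  Pool.Agent.W550.Corr Pool.Agent.TH133 Pool.Agent.Y107

variable {k : Type u} [Field k] {𝒱 : VarClass k} (C : TheoryData.{u, v, 0} 𝒱 ℚ) {X : 𝒱.Obj}

/-- The self-correspondence `γ` is algebraic over `ℚ` for the composition:
`c 0 • Δ + c 1 • γ + c 2 • γ ∘ γ + ⋯ + c n • γ ^ n = 0` for some rational numbers `c 0, …, c n`, not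
all zero. (Nilpotent and idempotent correspondences are algebraic.) -/
def AlgebraicCor (γ : C.A (X.prod X)) : Prop :=
  ∃ (n : ℕ) (c : ℕ → ℚ), (∃ j ≤ n, c j ≠ 0) ∧
    ∑ j ∈ Finset.range (n + 1), c j • corPow C γ j = 0

/-- The subspace `B` of `CH^(dim X)(X × X)` is closed under composition and under transposition. -/
structure IsStableAlgebra (B : Submodule ℚ (C.A (X.prod X))) : Prop where
  deg : ∀ γ ∈ B, C.Deg X.dim γ
  comp : ∀ γ ∈ B, ∀ δ ∈ B, C.comp γ δ ∈ B
  transpose : ∀ γ ∈ B, tp C γ ∈ B

variable {C} {K : Type w} [Field K] (H : WeilTheoryData.{u, v, w} C K)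

/-- The correspondence `s` acts on `H^m(X)` as the multiplication by `dim X - m`, for all `m`. -/
def ActsByWeight (s : C.A (X.prod X)) : Prop :=
  ∀ (m : ℤ) (a : H.A X), H.Deg m a → H.act (H.cl s) a = (((X.dim : ℤ) - m : ℤ) : K) • a

/-- The correspondence `p` acts on the cohomology of `X` as the projection to `H^n(X)`. -/
def ActsAsProjector (n : ℕ) (p : C.A (X.prod X)) : Prop :=
  ∀ (m : ℤ) (a : H.A X), H.Deg m a → H.act (H.cl p) a = if m = n then a else 0

/-- The variety `X` has a self-dual Chow-Kunneth decomposition. -/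
def HasSelfDualCK (X : 𝒱.Obj) : Prop := ∃ π, IsCK H X π ∧ IsSelfDual C π

/-- The variety `X` has a Chow-Kunneth decomposition `π` such that the composition of `π n` with the
transpose of `π m` after it is zero for all `m, n < dim X`. -/
def HasHalfOrthogonalCK (X : 𝒱.Obj) : Prop :=
  ∃ π, IsCK H X π ∧ ∀ m < X.dim, ∀ n < X.dim, C.comp (π n) (tp C (π m)) = 0

/-- The Kunneth projectors of `X` of degrees `n < dim X` are the actions of elements of a finite
dimensional algebra of correspondences stable under transposition. -/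
def HasFiniteLifts (X : 𝒱.Obj) : Prop :=
  ∃ B : Submodule ℚ (C.A (X.prod X)), IsStableAlgebra C B ∧ FiniteDimensional ℚ B ∧
    ∀ n < X.dim, ∃ p ∈ B, ActsAsProjector H n p

/-- The Kunneth projectors of `X` of degrees `n < dim X` are the actions of elements of an algebra of
correspondences stable under transposition, the homologically trivial elements of which are algebraic
over `ℚ`. -/
def HasAlgebraicLifts (X : 𝒱.Obj) : Prop :=
  ∃ B : Submodule ℚ (C.A (X.prod X)), IsStableAlgebra C B ∧
    (∀ γ ∈ B, H.cl γ = 0 → AlgebraicCor C γ) ∧ ∀ n < X.dim, ∃ p ∈ B, ActsAsProjector H n p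

/-- There is a correspondence `s ∈ CH^(dim X)(X × X)` with transpose `-s`, algebraic over `ℚ`, which
acts on `H^m(X)` as the multiplication by `dim X - m`. -/
def HasSkewWeight (X : 𝒱.Obj) : Prop :=
  ∃ s : C.A (X.prod X), C.Deg X.dim s ∧ tp C s = -s ∧ ActsByWeight H s ∧ AlgebraicCor C s

end Pool.Agent.K3h96.SD
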