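import Pool.Agent.Y107.SDRing
import Pool.Agent.K3h96.SD.Defs
import Pool.Agent.K3h96.SD.Alg

/-!
# Self-dual Chow-Kunneth decompositions from algebraic skew correspondences
-/

open CategoryTheory AlgebraicGeometry

universe u v w

namespace Pool.Agent.K3h96.SD

open Pool.Agent.H914 Pool.Agent.H914.VarClass Pool.Agent.H914.VarClass.Obj Pool.Agent.W492.BB
  Pool.Agent.W550.Corr Pool.Agent.TH133 Pool.Agent.Y107

set_option linter.unusedSectionVars false

variable {k : Type u} [Field k] {𝒱 : VarClass k}
  {C : TheoryData.{u, v, 0} 𝒱 ℚ} [hC : IsChowProj C] {X : 𝒱.Obj}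

section ring

include hC

lemma sum_pow_eq (γ : Cor C X) (c : ℕ → ℚ) (n : ℕ) :
    (∑ j ∈ Finset.range n, c j • (γ ^ j : Cor C X)) =
      (show Cor C X from ∑ j ∈ Finset.range n, c j • corPow C (X := X) γ j) :=
  Finset.sum_congr rfl fun j _ => congrArg (fun x : Cor C X => c j • x) (corPow_eq γ j).symm

lemma algebraicCor_iff (γ : Cor C X) : AlgebraicCor C (X := X) γ ↔ IsAlgebraic ℚ γ := by
  constructor
  · rintro ⟨n, c, ⟨j, hj, hcj⟩, h⟩
    refine ⟨∑ i ∈ Finset.range (n + 1), Polynomial.monomial i (c i), ?_, ?_⟩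
    · intro h0
      apply hcj
      have h1 := congrArg (fun p => Polynomial.coeff p j) h0
      simp only [Polynomial.finsetSum_coeff, Polynomial.coeff_monomial, Polynomial.coeff_zero] at h1
      rwa [Finset.sum_ite_eq' , if_pos (Finset.mem_range.2 (by omega))] at h1
    · rw [map_sum]
      rw [Finset.sum_congr rfl fun i _ => show Polynomial.aeval γ (Polynomial.monomial i (c i)) =
        c i • (γ ^ i : Cor C X) by rw [Polynomial.aeval_monomial, Algebra.smul_def]]
      rw [sum_pow_eq]
      exact h
  · rintro ⟨P, hP, h⟩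
    refine ⟨P.natDegree, P.coeff, ⟨P.natDegree, le_rfl, ?_⟩, ?_⟩
    · exact Polynomial.leadingCoeff_ne_zero.2 hP
    · rw [Polynomial.aeval_eq_sum_range] at h
      rw [sum_pow_eq] at h
      exact h

/-- An element of a subspace of finite dimension closed under multiplication is algebraic. -/
lemma isAlgebraic_of_finite (B : Submodule ℚ (Cor C X)) [FiniteDimensional ℚ B]
    (hB : ∀ a ∈ B, ∀ b ∈ B, a * b ∈ B) {x : Cor C X} (hx : x ∈ B) : IsAlgebraic ℚ x := by
  have hpow : ∀ n : ℕ, x ^ (n + 1) ∈ B := by
    intro n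
    induction n with
    | zero => simpa using hx
    | succ n ih => rw [pow_succ]; exact hB _ ih _ hx
  have h1 : ¬ LinearIndependent ℚ (fun n : ℕ => (⟨x ^ (n + 1), hpow n⟩ : B)) := by
    intro h
    exact Infinite.not_finite (h.finite_of_isNoetherian)
  have h2 : ¬ Function.Injective (Polynomial.aeval x : Polynomial ℚ →ₐ[ℚ] Cor C X) := by
    intro hinj
    apply h1
    have h3 : LinearIndependent ℚ (fun n : ℕ => x ^ (n + 1)) := by
      have h4 : LinearIndependent ℚ (fun n : ℕ => (Polynomial.X ^ (n + 1) : Polynomial ℚ)) := by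
        have h5 : LinearIndependent ℚ (fun n : ℕ => (Polynomial.X ^ n : Polynomial ℚ)) := by
          have := (Polynomial.basisMonomials ℚ).linearIndependent
          simpa [Polynomial.coe_basisMonomials, Polynomial.X_pow_eq_monomial] using this
        exact h5.comp (fun n => n + 1) (fun a b h => by simpa using h)
      have h6 := h4.map' (Polynomial.aeval x : Polynomial ℚ →ₐ[ℚ] Cor C X).toLinearMap
        (LinearMap.ker_eq_bot.2 hinj)
      simpa [Function.comp_def] using h6
    exact LinearIndependent.of_comp B.subtype h3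
  by_contra h
  apply h2
  exact transcendental_iff_injective.1 h

end ring

variable {K : Type w} [Field K] {H : WeilTheoryData.{u, v, w} C K} [hH : IsWeilProj H]

include hC hH

/-- The action of the transpose of a correspondence acting by scalars. -/
lemma act_tp_scalar {Γ : C.A (X.prod X)} (f : ℤ → K)
    (h : ∀ (m : ℤ) (a : H.A X), H.Deg m a → H.act (H.cl Γ) a = f m • a) (m : ℤ) (b : H.A X)
    (hb : H.Deg m b) : H.act (H.cl (tp C Γ)) b = f (2 * X.dim - m) • b := by
  rw [← sub_eq_zero]
  apply H.nondeg
  have h2 : H.tr X ∘ₗ LinearMap.mulLeft K (H.act (H.cl (tp C Γ)) b) =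
      H.tr X ∘ₗ LinearMap.mulLeft K (f (2 * X.dim - m) • b) := by
    apply ext_gr H
    intro n a ha
    rw [LinearMap.comp_apply, LinearMap.comp_apply, LinearMap.mulLeft_apply,
      LinearMap.mulLeft_apply, tr_act' H, h n a ha, mul_smul_comm, smul_mul_assoc, map_smul,
      map_smul]
    by_cases h3 : m + n = 2 * X.dim
    · rw [show n = 2 * X.dim - m by omega]
    · rw [tr_zero H (H.mul_mem hb ha) h3, smul_zero, smul_zero]
  intro a
  have h3 := LinearMap.congr_fun h2 a
  rw [LinearMap.comp_apply, LinearMap.comp_apply, LinearMap.mulLeft_apply,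
    LinearMap.mulLeft_apply] at h3
  rw [sub_mul, map_sub, h3, sub_self]

/-- A self-dual Chow-Kunneth decomposition from an algebraic skew correspondence acting by the
weight. -/
theorem exists_of_skew (s : Cor C X) (hs0 : s ∈ cor0 C X) (hts : tpR C X s = -s)
    (hw : ActsByWeight H (X := X) s) (hs : IsAlgebraic ℚ s) :
    ∃ π, IsCK H X π ∧ IsSelfDual C π := by
  obtain ⟨e, h1, h2, h3, h4, h5, h6, h7⟩ := exists_idem (tpR C X) tpR_one tpR_mul tpR_smul hs hts
  have hadj : ∀ x ∈ Algebra.adjoin ℚ {s}, x ∈ cor0 C X := by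
    intro x hx
    exact (Algebra.adjoin_le (by simpa using hs0) : Algebra.adjoin ℚ {s} ≤ cor0 C X) hx
  have hpos : ∀ n < X.dim, (0 : ℚ) < (X.dim : ℚ) - n := by
    intro n hn
    have : (n : ℚ) < X.dim := by exact_mod_cast hn
    linarith
  have hsm : ∀ (m : ℤ) (a : H.A X), a ∈ H.gr X m →
      actH C X H s a = (((X.dim : ℚ) - m : ℚ) : K) • a := by
    intro m a ha
    have h := hw m a ha
    rw [actH_apply, h, show ((X.dim : ℚ) - m : ℚ) = (((X.dim : ℤ) - m : ℤ) : ℚ) by push_cast; rfl,
      Rat.cast_intCast]
  refine selfDual_of_half (H := H) (fun n => if n < X.dim then e ((X.dim : ℚ) - n) else 0) ?_ ?_ ?_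
    ?_ ?_ ?_ ?_
  · intro n
    split_ifs
    · exact hadj _ (h1 _)
    · exact (cor0 C X).zero_mem
  · intro n hn
    rw [if_neg (by omega)]
  · intro m n
    by_cases hm : m < X.dim
    · by_cases hn : n < X.dim
      · rw [if_pos hm, if_pos hn]
        by_cases hmn : m = n
        · rw [if_pos hmn, hmn, h2]
        · rw [if_neg hmn]
          apply h3
          intro h
          apply hmn
          have : (m : ℚ) = n := by linarith
          exact_mod_cast this
      · rw [if_neg hn, mul_zero]
        split_ifs with h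
        · omega
        · rfl
    · rw [if_neg hm, zero_mul]
      split_ifs <;> rfl
  · intro m n
    split_ifs with hm hn hn
    · exact h4 _ _ (hpos m hm) (hpos n hn)
    · rw [map_zero, mul_zero]
    · rw [zero_mul]
    · rw [zero_mul]
  · intro m n
    split_ifs with hm hn hn
    · exact h5 _ _ (hpos m hm) (hpos n hn)
    · rw [mul_zero]
    · rw [map_zero, zero_mul]
    · rw [map_zero, zero_mul]
  · intro n m a hn ha
    rw [if_pos hn, (h7 (actH C X H) a _ (hsm m a ha)).1]
    by_cases hmn : m = n
    · rw [if_pos hmn, if_pos (by rw [hmn]; push_cast; rfl)]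
    · rw [if_neg hmn, if_neg]
      intro h
      apply hmn
      have : (m : ℚ) = n := by linarith
      exact_mod_cast this
  · intro n m a hn ha
    rw [if_pos hn, (h7 (actH C X H) a _ (hsm m a ha)).2]
    have e1 : (((2 * X.dim - n : ℕ) : ℤ) : ℚ) = 2 * X.dim - n := by
      rw [Int.cast_natCast, Nat.cast_sub (by omega)]
      push_cast; rfl
    by_cases hmn : m = (2 * X.dim - n : ℕ)
    · rw [if_pos hmn, if_pos]
      rw [hmn, e1]; ring
    · rw [if_neg hmn, if_neg]
      intro h
      apply hmn
      have : (m : ℚ) = ((2 * X.dim - n : ℕ) : ℤ) := by rw [e1]; linarith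
      exact_mod_cast this

/-- The skew weight correspondence attached to lifts of the lower half of the Kunneth
projectors. -/
lemma weight_of_lifts (p : ℕ → Cor C X)
    (hp : ∀ n < X.dim, ActsAsProjector H (X := X) n (p n)) :
    ActsByWeight H (X := X) (∑ n ∈ Finset.range X.dim,
      ((X.dim : ℚ) - n) • (p n - tpR C X (p n)) : Cor C X) := by
  intro m a ha
  have hK : ∀ q : ℚ, ∀ x : Cor C X, actH C X H (q • x) a = (q : K) • actH C X H x a := by
    intro q x
    rw [Algebra.smul_def, map_mul, Module.End.mul_apply]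
    generalize actH C X H x a = b
    by_cases hb : b = 0
    · rw [hb, map_zero, smul_zero]
    have hch : CharZero K := by
      refine charZero_of_inj_zero fun n hn => ?_
      by_contra hn0
      have h1 : actH C X H ((n : Cor C X) * algebraMap ℚ (Cor C X) ((n : ℚ)⁻¹)) b = b := by
        rw [← map_natCast (algebraMap ℚ (Cor C X)), ← map_mul,
          mul_inv_cancel₀ (Nat.cast_ne_zero.2 hn0), map_one, map_one]
        rfl
      rw [map_mul, map_natCast, Module.End.mul_apply, Module.End.natCast_apply] at h1
      apply hb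
      rw [← h1, ← Nat.cast_smul_eq_nsmul K, hn, zero_smul]
    have : (actH C X H).comp (algebraMap ℚ (Cor C X)) =
      (algebraMap K (Module.End K (H.A X))).comp (algebraMap ℚ K) := RingHom.ext_rat _ _
    have h2 := congrArg (fun f => f q b) this
    exact h2
  have hp1 : ∀ n < X.dim, actH C X H (p n) a = if m = n then a else 0 := fun n hn =>
    hp n hn m a ha
  have hp2 : ∀ n < X.dim, actH C X H (tpR C X (p n)) a = if 2 * X.dim - m = n then a else 0 := by
    intro n hn
    have h := act_tp_scalar (H := H) (Γ := (p n : C.A (X.prod X)))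
      (fun m => if m = n then 1 else 0) (fun m a ha => by
        rw [hp n hn m a ha]
        split_ifs
        · rw [one_smul]
        · rw [zero_smul]) m a ha
    have h' : actH C X H (tpR C X (p n)) a =
      (if 2 * X.dim - m = n then (1 : K) else 0) • a := h
    rw [h']
    split_ifs
    · rw [one_smul]
    · rw [zero_smul]
  change actH C X H _ a = _
  rw [map_sum, LinearMap.sum_apply]
  by_cases ha0 : a = 0
  · subst ha0
    rw [smul_zero]
    apply Finset.sum_eq_zero
    intro n _
    rw [map_zero]
  have hm0 := nonneg_of_mem H ha ha0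
  have hm1 : m ≤ 2 * X.dim := by
    by_contra hcon
    have ha' : a ∈ H.gr X m := ha
    rw [gr_top H (by omega)] at ha'
    exact ha0 ((Submodule.mem_bot _).1 ha')
  obtain ⟨m, rfl⟩ := Int.eq_ofNat_of_zero_le hm0
  have e : ∀ n ∈ Finset.range X.dim, actH C X H (((X.dim : ℚ) - n) • (p n - tpR C X (p n))) a =
      ((if m = n then ((X.dim : ℤ) - n : ℤ) else 0 : ℤ) : K) • a +
      ((if 2 * X.dim - m = n then (n - (X.dim : ℤ) : ℤ) else 0 : ℤ) : K) • a := by
    intro n hn
    rw [Finset.mem_range] at hn
    rw [hK, map_sub, LinearMap.sub_apply, hp1 n hn, hp2 n hn, smul_sub,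
      show ((X.dim : ℚ) - n : ℚ) = (((X.dim : ℤ) - n : ℤ) : ℚ) by push_cast; rfl, Rat.cast_intCast]
    by_cases h1 : m = n
    · have h2 : ¬ (2 * (X.dim : ℤ) - m = n) := by omega
      have h2' : ¬ (2 * X.dim - m = n) := by omega
      have h1' : (m : ℤ) = n := by exact_mod_cast h1
      rw [if_pos h1', if_neg h2, if_pos h1, if_neg h2', smul_zero, sub_zero, Int.cast_zero,
        zero_smul, add_zero]
    · have h1' : ¬ (m : ℤ) = n := by exact_mod_cast h1
      rw [if_neg h1', if_neg h1, smul_zero, Int.cast_zero, zero_smul, zero_add, zero_sub]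
      by_cases h2 : 2 * X.dim - m = n
      · have h2' : 2 * (X.dim : ℤ) - m = n := by omega
        rw [if_pos h2', if_pos h2, ← neg_smul]
        push_cast
        congr 1
        ring
      · have h2' : ¬ (2 * (X.dim : ℤ) - m = n) := by omega
        rw [if_neg h2', if_neg h2, smul_zero, neg_zero, Int.cast_zero, zero_smul]
  rw [Finset.sum_congr rfl e, Finset.sum_add_distrib, ← Finset.sum_smul, ← Finset.sum_smul,
    ← Int.cast_sum, ← Int.cast_sum, Finset.sum_ite_eq, Finset.sum_ite_eq, ← add_smul,
    ← Int.cast_add]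
  congr 2
  simp only [Finset.mem_range]
  split_ifs <;> omega

omit hH in
/-- Elements of positive degree in the polynomials in `s` stay in an algebra containing `s`. -/
lemma mul_aeval_mem {B : Submodule ℚ (Cor C X)} (hmul : ∀ a ∈ B, ∀ b ∈ B, a * b ∈ B) {s : Cor C X}
    (hs : s ∈ B) (f : Polynomial ℚ) : s * Polynomial.aeval s f ∈ B := by
  induction f using Polynomial.induction_on' with
  | add f g hf hg => rw [map_add, mul_add]; exact B.add_mem hf hg
  | monomial n a =>
    have h1 : ∀ n : ℕ, s * s ^ n ∈ B := by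
      intro n
      induction n with
      | zero => simpa using hs
      | succ n ih => rw [pow_succ, ← mul_assoc]; exact hmul _ ih _ hs
    rw [Polynomial.aeval_monomial, ← Algebra.smul_def, mul_smul_comm]
    exact B.smul_mem _ (h1 n)

/-- The general criterion: an algebra of correspondences stable under transposition containing
lifts of the lower half of the Kunneth projectors, in which the homologically trivial elements are
algebraic. -/
theorem exists_of_stable (B : Submodule ℚ (Cor C X)) (hdeg : ∀ a ∈ B, a ∈ cor0 C X)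
    (hmul : ∀ a ∈ B, ∀ b ∈ B, a * b ∈ B) (htp : ∀ a ∈ B, tpR C X a ∈ B)
    (hN : ∀ a ∈ B, H.cl (a : C.A (X.prod X)) = 0 → IsAlgebraic ℚ a)
    (hp : ∀ n < X.dim, ∃ p ∈ B, ActsAsProjector H (X := X) n p) :
    ∃ s ∈ B, tpR C X s = -s ∧ ActsByWeight H (X := X) s ∧ IsAlgebraic ℚ s := by
  have : Nonempty (Cor C X) := ⟨0⟩
  choose! p hp using hp
  set s : Cor C X := ∑ n ∈ Finset.range X.dim, ((X.dim : ℚ) - n) • (p n - tpR C X (p n)) with hs
  have hsB : s ∈ B := B.sum_mem fun n hn => B.smul_mem _
    (B.sub_mem (hp n (Finset.mem_range.1 hn)).1 (htp _ (hp n (Finset.mem_range.1 hn)).1))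
  have hw : ActsByWeight H (X := X) s := weight_of_lifts p fun n hn => (hp n hn).2
  refine ⟨s, hsB, ?_, hw, ?_⟩
  · rw [hs, map_sum, ← Finset.sum_neg_distrib]
    apply Finset.sum_congr rfl
    intro n _
    rw [tpR_smul, map_sub, tpR_tpR, ← smul_neg, neg_sub]
  · let g : Polynomial ℚ := ∏ j ∈ Finset.range X.dim,
      ((Polynomial.X - Polynomial.C ((j : ℚ) + 1)) * (Polynomial.X - Polynomial.C (-((j : ℚ) + 1))))
    have hg : g.Monic := Polynomial.monic_prod_of_monic _ _ fun j _ =>
      (Polynomial.monic_X_sub_C _).mul (Polynomial.monic_X_sub_C _)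
    have hW : (Polynomial.X * g : Polynomial ℚ).Monic := Polynomial.monic_X.mul hg
    refine IsAlgebraic.of_aeval (Polynomial.X * g) ?_ ?_ (hN _ ?_ ?_)
    · rw [Polynomial.monic_X.natDegree_mul hg, Polynomial.natDegree_X]
      omega
    · rw [hW.leadingCoeff]
      exact one_mem _
    · rw [map_mul, Polynomial.aeval_X]
      exact mul_aeval_mem hmul hsB g
    · refine hom_zero_of_act H (X := X) (Y := X) ?_
      have h1 : actH C X H (Polynomial.aeval s (Polynomial.X * g)) = 0 := by
        refine ext_gr H (X := X) _ _ ?_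
        intro m a ha
        rw [LinearMap.zero_apply]
        by_cases ha0 : a = 0
        · rw [ha0, map_zero]
        have hm0 := nonneg_of_mem H ha ha0
        have hm1 : m ≤ 2 * X.dim := by
          by_contra hcon
          rw [gr_top H (by omega)] at ha
          exact ha0 ((Submodule.mem_bot _).1 ha)
        have h2 : actH C X H s a = ((((X.dim : ℤ) - m : ℤ) : ℚ) : K) • a := by
          rw [Rat.cast_intCast]
          exact hw m a ha
        rw [(act_aeval (actH C X H) ha0 h2 _).1, Polynomial.eval_mul, Polynomial.eval_X]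
        have h3 : (((X.dim : ℤ) - m : ℤ) : ℚ) * g.eval (((X.dim : ℤ) - m : ℤ) : ℚ) = 0 := by
          rcases lt_trichotomy (m : ℤ) X.dim with h | h | h
          · rw [mul_eq_zero]; right
            rw [Polynomial.eval_prod, Finset.prod_eq_zero_iff]
            refine ⟨(X.dim - m - 1).toNat, ?_, ?_⟩
            · rw [Finset.mem_range]; omega
            · rw [Polynomial.eval_mul, mul_eq_zero]; left
              rw [Polynomial.eval_sub, Polynomial.eval_X, Polynomial.eval_C, sub_eq_zero]
              have h4 : (((X.dim - m - 1).toNat : ℤ)) = X.dim - m - 1 :=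
                Int.toNat_of_nonneg (by omega)
              have h5 : (((X.dim - m - 1).toNat : ℕ) : ℚ) = ((X.dim - m - 1 : ℤ) : ℚ) := by
                exact_mod_cast h4
              rw [h5]; push_cast; ring
          · rw [h]; simp
          · rw [mul_eq_zero]; right
            rw [Polynomial.eval_prod, Finset.prod_eq_zero_iff]
            refine ⟨(m - X.dim - 1).toNat, ?_, ?_⟩
            · rw [Finset.mem_range]; omega
            · rw [Polynomial.eval_mul, mul_eq_zero]; right
              rw [Polynomial.eval_sub, Polynomial.eval_X, Polynomial.eval_C, sub_eq_zero]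
              have h4 : (((m - X.dim - 1).toNat : ℤ)) = m - X.dim - 1 :=
                Int.toNat_of_nonneg (by omega)
              have h5 : (((m - X.dim - 1).toNat : ℕ) : ℚ) = ((m - X.dim - 1 : ℤ) : ℚ) := by
                exact_mod_cast h4
              rw [h5]; push_cast; ring
        rw [h3, Rat.cast_zero, zero_smul]
      exact fun a => LinearMap.congr_fun h1 a

end Pool.Agent.K3h96.SD
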