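import Pool.Agent.K3h96.SD.Crit

/-!
# Criteria for self-dual Chow-Kunneth decompositions
-/

open CategoryTheory AlgebraicGeometry

universe u v w

namespace Pool.Agent.K3h96.SD

open Pool.Agent.H914 Pool.Agent.H914.VarClass Pool.Agent.H914.VarClass.Obj Pool.Agent.W492.BB
  Pool.Agent.W550.Corr Pool.Agent.TH133 Pool.Agent.Y107

set_option linter.unusedSectionVars false

variable {k : Type u} [Field k] {𝒱 : VarClass k}
  {C : TheoryData.{u, v, 0} 𝒱 ℚ} [hC : IsChowProj C] {X : 𝒱.Obj}

section half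

include hC

/-- The span of `p m`, `t (p m)` and `p m * t (p n)` (`m, n < d`) is an algebra stable under `t` if
the `p m` are orthogonal idempotents with `t (p m) * p n = 0`. -/
lemma half_algebra (d : ℕ) (p : ℕ → Cor C X)
    (hpp : ∀ m < d, ∀ n < d, p m * p n = if m = n then p m else 0)
    (hqp : ∀ m < d, ∀ n < d, tpR C X (p m) * p n = 0) :
    let S : Set (Cor C X) := {x | ∃ m < d, x = p m} ∪ {x | ∃ m < d, x = tpR C X (p m)} ∪
      {x | ∃ m < d, ∃ n < d, x = p m * tpR C X (p n)}
    (∀ a ∈ Submodule.span ℚ S, ∀ b ∈ Submodule.span ℚ S, a * b ∈ Submodule.span ℚ S) ∧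
      (∀ a ∈ Submodule.span ℚ S, tpR C X a ∈ Submodule.span ℚ S) ∧ S.Finite := by
  intro S
  have hqq : ∀ m < d, ∀ n < d, tpR C X (p m) * tpR C X (p n) =
      if m = n then tpR C X (p m) else 0 := by
    intro m hm n hn
    rw [← tpR_mul, hpp n hn m hm]
    by_cases h : n = m
    · rw [if_pos h, if_pos h.symm, h]
    · rw [if_neg h, if_neg (Ne.symm h), map_zero]
  have h1 : ∀ m < d, p m ∈ Submodule.span ℚ S := fun m hm =>
    Submodule.subset_span (Or.inl (Or.inl ⟨m, hm, rfl⟩))
  have h2 : ∀ m < d, tpR C X (p m) ∈ Submodule.span ℚ S := fun m hm =>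
    Submodule.subset_span (Or.inl (Or.inr ⟨m, hm, rfl⟩))
  have h3 : ∀ m < d, ∀ n < d, p m * tpR C X (p n) ∈ Submodule.span ℚ S := fun m hm n hn =>
    Submodule.subset_span (Or.inr ⟨m, hm, n, hn, rfl⟩)
  have h0 := Submodule.zero_mem (Submodule.span ℚ S)
  refine ⟨?_, ?_, ?_⟩
  · intro a ha b hb
    induction ha using Submodule.span_induction with
    | zero => rw [zero_mul]; exact h0
    | add x y _ _ hx hy => rw [add_mul]; exact Submodule.add_mem _ hx hy
    | smul q x _ hx => rw [smul_mul_assoc]; exact Submodule.smul_mem _ _ hx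
    | mem x hx =>
      induction hb using Submodule.span_induction with
      | zero => rw [mul_zero]; exact h0
      | add y z _ _ hy hz => rw [mul_add]; exact Submodule.add_mem _ hy hz
      | smul q y _ hy => rw [mul_smul_comm]; exact Submodule.smul_mem _ _ hy
      | mem y hy =>
        rcases hx with (⟨m, hm, rfl⟩ | ⟨m, hm, rfl⟩) | ⟨m, hm, n, hn, rfl⟩
        · rcases hy with (⟨m', hm', rfl⟩ | ⟨m', hm', rfl⟩) | ⟨m', hm', n', hn', rfl⟩
          · rw [hpp m hm m' hm']
            split_ifs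
            · exact h1 m hm
            · exact h0
          · exact h3 m hm m' hm'
          · rw [← mul_assoc, hpp m hm m' hm']
            split_ifs
            · exact h3 m hm n' hn'
            · rw [zero_mul]; exact h0
        · rcases hy with (⟨m', hm', rfl⟩ | ⟨m', hm', rfl⟩) | ⟨m', hm', n', hn', rfl⟩
          · rw [hqp m hm m' hm']; exact h0
          · rw [hqq m hm m' hm']
            split_ifs
            · exact h2 m hm
            · exact h0
          · rw [← mul_assoc, hqp m hm m' hm', zero_mul]; exact h0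
        · rcases hy with (⟨m', hm', rfl⟩ | ⟨m', hm', rfl⟩) | ⟨m', hm', n', hn', rfl⟩
          · rw [mul_assoc, hqp n hn m' hm', mul_zero]; exact h0
          · rw [mul_assoc, hqq n hn m' hm']
            split_ifs
            · exact h3 m hm n hn
            · rw [mul_zero]; exact h0
          · rw [mul_assoc, ← mul_assoc (tpR C X (p n)), hqp n hn m' hm', zero_mul, mul_zero]
            exact h0
  · intro a ha
    induction ha using Submodule.span_induction with
    | zero => rw [map_zero]; exact h0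
    | add x y _ _ hx hy => rw [map_add]; exact Submodule.add_mem _ hx hy
    | smul q x _ hx => rw [tpR_smul]; exact Submodule.smul_mem _ _ hx
    | mem x hx =>
      rcases hx with (⟨m, hm, rfl⟩ | ⟨m, hm, rfl⟩) | ⟨m, hm, n, hn, rfl⟩
      · exact h2 m hm
      · rw [tpR_tpR]; exact h1 m hm
      · rw [tpR_mul, tpR_tpR]; exact h3 n hn m hm
  · apply Set.Finite.union
    · apply Set.Finite.union
      · apply ((Finset.range d).finite_toSet.image p).subset
        rintro x ⟨m, hm, rfl⟩
        exact ⟨m, by simpa using hm, rfl⟩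
      · apply ((Finset.range d).finite_toSet.image (fun m => tpR C X (p m))).subset
        rintro x ⟨m, hm, rfl⟩
        exact ⟨m, by simpa using hm, rfl⟩
    · apply (((Finset.range d) ×ˢ (Finset.range d)).finite_toSet.image
        (fun mn : ℕ × ℕ => p mn.1 * tpR C X (p mn.2))).subset
      rintro x ⟨m, hm, n, hn, rfl⟩
      exact ⟨(m, n), by simp [hm, hn], rfl⟩

end half

variable {K : Type w} [Field K] {H : WeilTheoryData.{u, v, w} C K} [hH : IsWeilProj H]

include hC hH

/-- The equivalence of the criteria. -/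
theorem criteria : List.TFAE [
    ∃ π, IsCK H X π ∧ IsSelfDual C π,
    ∃ π, IsCK H X π ∧ ∀ m < X.dim, ∀ n < X.dim, C.comp (π n) (tp C (π m)) = 0,
    ∃ B : Submodule ℚ (C.A (X.prod X)), IsStableAlgebra C B ∧ FiniteDimensional ℚ B ∧
      ∀ n < X.dim, ∃ p ∈ B, ActsAsProjector H n p,
    ∃ B : Submodule ℚ (C.A (X.prod X)), IsStableAlgebra C B ∧
      (∀ γ ∈ B, H.cl γ = 0 → AlgebraicCor C γ) ∧ ∀ n < X.dim, ∃ p ∈ B, ActsAsProjector H n p,
    ∃ s : C.A (X.prod X), C.Deg X.dim s ∧ tp C s = -s ∧ ActsByWeight H s ∧ AlgebraicCor C s] := by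
  tfae_have 1 → 2 := by
    rintro ⟨π, h1, h2⟩
    refine ⟨π, h1, ?_⟩
    intro m hm n hn
    rw [h2 m (by omega)]
    exact h1.orth _ _ (by omega)
  tfae_have 2 → 3 := by
    rintro ⟨π, h1, h2⟩
    let p : ℕ → Cor C X := π
    have hpp : ∀ m < X.dim, ∀ n < X.dim, p m * p n = if m = n then p m else 0 := fun m _ n _ =>
      IsCK.mul_eq (P := p) h1 m n
    have hqp : ∀ m < X.dim, ∀ n < X.dim, tpR C X (p m) * p n = 0 := fun m hm n hn =>
      h2 m hm n hn
    obtain ⟨h3, h4, h5⟩ := half_algebra X.dim p hpp hqp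
    set S : Set (Cor C X) := {x | ∃ m < X.dim, x = p m} ∪ {x | ∃ m < X.dim, x = tpR C X (p m)} ∪
      {x | ∃ m < X.dim, ∃ n < X.dim, x = p m * tpR C X (p n)} with hS
    have hSdeg : Submodule.span ℚ S ≤ (Subalgebra.toSubmodule (cor0 C X)) := by
      rw [Submodule.span_le]
      have hpd : ∀ m, p m ∈ cor0 C X := h1.deg
      rintro x ((⟨m, hm, rfl⟩ | ⟨m, hm, rfl⟩) | ⟨m, hm, n, hn, rfl⟩)
      · exact hpd m
      · exact tpR_mem (hpd m)
      · exact (cor0 C X).mul_mem (hpd m) (tpR_mem (hpd n))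
    refine ⟨Submodule.span ℚ S, ⟨fun γ hγ => hSdeg hγ, fun γ hγ δ hδ => h3 δ hδ γ hγ,
      fun γ hγ => h4 γ hγ⟩, FiniteDimensional.span_of_finite ℚ h5, ?_⟩
    intro n hn
    exact ⟨p n, Submodule.subset_span (Or.inl (Or.inl ⟨n, hn, rfl⟩)),
      fun m a ha => h1.actH_eq n m ha⟩
  tfae_have 3 → 4 := by
    rintro ⟨B, h1, h2, h3⟩
    refine ⟨B, h1, ?_, h3⟩
    intro γ hγ _
    rw [algebraicCor_iff (X := X) γ]
    let B' : Submodule ℚ (Cor C X) := B
    have : FiniteDimensional ℚ B' := h2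
    exact isAlgebraic_of_finite B' (fun a ha b hb => h1.comp b hb a ha) hγ
  tfae_have 4 → 5 := by
    rintro ⟨B, h1, h2, h3⟩
    obtain ⟨s, hs, h4, h5, h6⟩ := exists_of_stable (H := H) (X := X) B (fun a ha => h1.deg a ha)
      (fun a ha b hb => h1.comp b hb a ha) (fun a ha => h1.transpose a ha)
      (fun a ha h => (algebraicCor_iff (X := X) a).1 (h2 a ha h)) h3
    exact ⟨s, h1.deg s hs, h4, h5, (algebraicCor_iff (X := X) s).2 h6⟩
  tfae_have 5 → 1 := by
    rintro ⟨s, h1, h2, h3, h4⟩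
    exact exists_of_skew s h1 h2 h3 ((algebraicCor_iff (X := X) s).1 h4)
  tfae_finish

end Pool.Agent.K3h96.SD
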